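import Pool.Agent.Q192.SE.Sep

/-!
# Compact operators in support expansion algebras

Let `(X, μ)` be a measure space such that `L²(B)` is separable for every set `B` of finite measure
(every measure on a standard Borel space is of this kind). The quantum uniform Roe algebra of the
support expansion structure on `L²(X, μ)` contains a nonzero compact operator (if `L²(X, μ) ≠ 0`),
and it contains all compact operators if and only if `μ` does not have at the same time an atom and
an atomless set of finite positive measure. In particular both answers are positive for `ℝ` with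
Lebesgue measure.
-/

open MeasureTheory
open scoped NNReal ENNReal

namespace Pool.Agent.Results.MP_fe632d_an.CompactOperators

/-- The Hilbert space `L²(X, μ)` of complex functions. -/
abbrev L2 {X : Type*} [MeasurableSpace X] (μ : Measure X) : Type _ := Lp ℂ 2 μ

/-- The bounded operators on `L²(X, μ)`. -/
abbrev Op {X : Type*} [MeasurableSpace X] (μ : Measure X) : Type _ := L2 μ →L[ℂ] L2 μ

/-- The number `μ (supp ξ)`. -/
def suppMeasure {X : Type*} [MeasurableSpace X] (μ : Measure X) (ξ : L2 μ) : ℝ≥0∞ :=
  μ (Function.support ξ)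

/-- The operator `b` is the adjoint of `a`. -/
def IsAdjointOf {X : Type*} [MeasurableSpace X] (μ : Measure X) (b a : Op μ) : Prop :=
  ∀ ξ η : L2 μ, inner ℂ (a ξ) η = inner ℂ ξ (b η)

/-- The operator `a` has support expansion at most `l`:
`μ (supp (a ξ)) ≤ l μ (supp ξ)` and `μ (supp (a* ξ)) ≤ l μ (supp ξ)` for all `ξ`. -/
def SupportExpansion {X : Type*} [MeasurableSpace X] (μ : Measure X) (l : ℝ≥0) (a : Op μ) : Prop :=
  ∃ b : Op μ, IsAdjointOf μ b a ∧ ∀ ξ : L2 μ, suppMeasure μ (a ξ) ≤ l * suppMeasure μ ξ ∧
    suppMeasure μ (b ξ) ≤ l * suppMeasure μ ξ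

/-- The quantum uniform Roe algebra: the norm closure of the set of the operators which have
support expansion at most `l` for some `l`. -/
def RoeAlgebra {X : Type*} [MeasurableSpace X] (μ : Measure X) : Set (Op μ) :=
  closure {a | ∃ l : ℝ≥0, SupportExpansion μ l a}

/-- The algebra contains a nonzero compact operator. -/
def ContainsNonzeroCompact {X : Type*} [MeasurableSpace X] (μ : Measure X) : Prop :=
  ∃ K : Op μ, IsCompactOperator K ∧ K ≠ 0 ∧ K ∈ RoeAlgebra μ

/-- The algebra contains all compact operators. -/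
def ContainsAllCompact {X : Type*} [MeasurableSpace X] (μ : Measure X) : Prop :=
  ∀ K : Op μ, IsCompactOperator K → K ∈ RoeAlgebra μ

/-- `L²(B)` is separable for all measurable `B` of finite measure. -/
def LocallySeparable {X : Type*} [MeasurableSpace X] (μ : Measure X) : Prop :=
  ∀ B : Set X, MeasurableSet B → μ B ≠ ⊤ →
    TopologicalSpace.SeparableSpace (L2 (μ.restrict B))

/-- An atom: a measurable set of finite positive measure all of whose measurable subsets are
null sets or have null complement in it. -/
def IsAtomOf {X : Type*} [MeasurableSpace X] (μ : Measure X) (A : Set X) : Prop :=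
  MeasurableSet A ∧ μ A ≠ 0 ∧ μ A ≠ ⊤ ∧ ∀ S ⊆ A, MeasurableSet S → μ S = 0 ∨ μ (A \ S) = 0

/-- A measurable set of finite positive measure without atoms. -/
def IsAtomlessOf {X : Type*} [MeasurableSpace X] (μ : Measure X) (B : Set X) : Prop :=
  MeasurableSet B ∧ μ B ≠ 0 ∧ μ B ≠ ⊤ ∧ ∀ A ⊆ B, ¬ IsAtomOf μ A

theorem roe_eq {X : Type*} [MeasurableSpace X] (μ : Measure X) :
    RoeAlgebra μ = (Q192.SE.Cu μ : Set (Op μ)) := by
  have h : {a : Op μ | ∃ l : ℝ≥0, SupportExpansion μ l a} = (Q192.SE.FE μ : Set (Op μ)) := by
    ext a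
    constructor
    · rintro ⟨l, b, hb, hl⟩
      have hb' : b = ContinuousLinearMap.adjoint a := by
        rw [ContinuousLinearMap.eq_adjoint_iff]
        intro x y
        rw [← inner_conj_symm, ← hb y x, inner_conj_symm]
      subst hb'
      exact ⟨l, fun ξ => (hl ξ).1, fun ξ => (hl ξ).2⟩
    · rintro ⟨l, hl⟩
      exact ⟨l, ContinuousLinearMap.adjoint a, fun ξ η =>
        (ContinuousLinearMap.adjoint_inner_right a ξ η).symm, fun ξ => ⟨hl.1 ξ, hl.2 ξ⟩⟩
  rw [RoeAlgebra, h]
  rfl

theorem standard {X : Type*} [MeasurableSpace X] [StandardBorelSpace X] (μ : Measure X)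
    (hμ : ∀ x, μ {x} = 0) : ContainsAllCompact μ := by
  intro K hK
  rw [roe_eq]
  exact Q192.SE.compact_of_no_atoms (fun B _ _ => Q192.SE.cg_standard μ B)
    (Q192.SE.no_atoms_standard μ hμ) K hK

universe u

theorem result :
    -- (1), (2): the general theorem
    (∀ (X : Type u) [MeasurableSpace X] (μ : Measure X), LocallySeparable μ →
      (Nontrivial (L2 μ) → ContainsNonzeroCompact μ) ∧
      (ContainsAllCompact μ ↔ ¬ ((∃ A, IsAtomOf μ A) ∧ ∃ B, IsAtomlessOf μ B))) ∧
    -- (3): standard Borel spaces without point masses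
    (∀ (X : Type u) [MeasurableSpace X] [StandardBorelSpace X] (μ : Measure X),
      (∀ x, μ {x} = 0) → ContainsAllCompact μ) ∧
    -- (4): the real line
    ContainsAllCompact (volume : Measure ℝ) := by
  refine ⟨fun X _ μ hs => ?_, fun X _ _ μ hμ => standard μ hμ,
    standard volume (fun x => measure_singleton x)⟩
  have hc : ∀ B, MeasurableSet B → μ B ≠ ⊤ → Q192.SE.CG μ B := fun B hB hBf =>
    Q192.SE.cg_of_separable hB hBf (hs B hB hBf)
  rw [ContainsNonzeroCompact, ContainsAllCompact, roe_eq]
  exact ⟨fun hn => Q192.SE.exists_compact hc hn, Q192.SE.compacts_iff hc⟩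

end Pool.Agent.Results.MP_fe632d_an.CompactOperators
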